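import Pool.Agent.helper81.CX.Spec2

/-! # Project cx, row INT: the integrated inequality. -/

set_option autoImplicit false

open MeasureTheory Set Filter Topology
open scoped ENNReal
open Pool.Agent.helper81.CW

namespace Pool.Agent.CX

theorem INT_bdd {n : ℕ} {F : Type*} [NormedAddCommGroup F] [NormedSpace ℝ F] [MeasurableSpace F] [BorelSpace F]
    [SecondCountableTopology F] (hP : IsProbabilityMeasure (gm n)) {f : E n → F} (hf : Measurable f) (B : ℝ)
    (hB : ∀ x, ‖f x‖ ≤ B) : Integrable f (gm n) :=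
  Integrable.of_bound hf.aestronglyMeasurable B (Eventually.of_forall hB)

theorem INT_odd (hG1 : G1_stmt) {n : ℕ} (φ : E n → ℝ) (h : ∀ x, φ (-x) = - φ x) : ∫ x, φ x ∂(gm n) = 0 := by
  have h1 : ∫ x, φ x ∂(gm n) = ∫ x, φ (-x) ∂(gm n) := by
    have h2 := (MeasurableEquiv.neg (E n)).measurableEmbedding.integral_map (μ := gm n) φ
    have h3 : Measure.map (MeasurableEquiv.neg (E n)) (gm n) = gm n := (hG1 n).2
    rw [h3] at h2
    exact h2
  simp only [h, integral_neg] at h1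
  linarith

theorem INT_sq (hG1 : G1_stmt) (hG4 : G4_stmt) {n : ℕ} (hn : 1 ≤ n) :
    Integrable (fun x : E n => ‖x‖ ^ 2) (gm n) ∧ ∫ x : E n, ‖x‖ ^ 2 ∂(gm n) = n := by
  have := (hG1 n).1
  have h := hG4 n (fun _ => 1) 1 measurable_const (fun _ => by simp) (fun _ _ _ => rfl)
  simp only [mul_one, integral_const, smul_eq_mul, probReal_univ] at h
  refine ⟨?_, h⟩
  by_contra hc
  rw [integral_undef hc] at h
  have : (1 : ℝ) ≤ n := by exact_mod_cast hn
  linarith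

theorem INT_lin (hG1 : G1_stmt) (hG4 : G4_stmt) {n : ℕ} (hn : 1 ≤ n) {f : E n → E n} (hf : BM f) :
    Integrable (fun x : E n => (inner ℝ (f x) x : ℝ)) (gm n) := by
  have := (hG1 n).1
  have h1 := (INT_sq hG1 hG4 hn).1
  have h2 : Integrable (fun x : E n => 2 * (1 + ‖x‖ ^ 2)) (gm n) := ((integrable_const 1).add h1).const_mul 2
  refine h2.mono' (hf.1.inner measurable_id).aestronglyMeasurable (Eventually.of_forall fun x => ?_)
  have h3 := norm_inner_le_norm (𝕜 := ℝ) (f x) x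
  have h4 := hf.2 x
  have h5 := norm_nonneg x
  nlinarith [sq_nonneg (‖x‖ - 1), norm_nonneg (f x), mul_le_mul_of_nonneg_right h4 h5]

theorem INT_const {n : ℕ} (hP : IsProbabilityMeasure (gm n)) {f : E n → E n} (hf : Integrable f (gm n))
    (v : E n) : ∫ x, (inner ℝ (f x) v : ℝ) ∂(gm n) = inner ℝ (∫ x, f x ∂(gm n)) v := by
  have h : ∫ x, (inner ℝ v (f x) : ℝ) ∂(gm n) = inner ℝ v (∫ x, f x ∂(gm n)) := integral_inner (𝕜 := ℝ) hf v
  rw [real_inner_comm, ← h]
  exact integral_congr_ae (Eventually.of_forall fun x => real_inner_comm _ _)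

theorem INT_alg (a b mu c p t Q : ℝ) (hp : 0 < p) (ht : 0 < t) (hb : (1 + t) * b ^ 2 ≤ Q) :
    -((a - mu * c / 2) ^ 2 / (p * (1 + t))) ≤ p * Q + (2 * a - mu * c) * b := by
  have h1 : 0 < p * (1 + t) := by positivity
  have h2 : p * ((1 + t) * b ^ 2) ≤ p * Q := mul_le_mul_of_nonneg_left hb hp.le
  have h3 : 0 ≤ (p * (1 + t) * b + (a - mu * c / 2)) ^ 2 / (p * (1 + t)) := by positivity
  have h4 : (p * (1 + t) * b + (a - mu * c / 2)) ^ 2 / (p * (1 + t)) =
      p * (1 + t) * b ^ 2 + (2 * a - mu * c) * b + (a - mu * c / 2) ^ 2 / (p * (1 + t)) := by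
    field_simp
    ring
  rw [h4] at h3
  linarith

theorem INT (hG1 : G1_stmt) (hG4 : G4_stmt) (hJ2 : J2_stmt) (hCRB : CRB_stmt) (hODQ : ODQ_stmt) (hDEC : DEC_stmt)
    (hAVC : AVC_stmt) (hPRC : PRC_stmt) : INT_stmt := by
  intro n C M W y a mu p t c g hn hC hR hM hX hmu0 hmu1 hp ht0 ht1 hc0 hc1 hWB hWe hWm hform hym hyC hyh
  have hP : IsProbabilityMeasure (gm n) := (hG1 n).1
  have hn0 : (0 : ℝ) < n := by exact_mod_cast (by omega : 0 < n)
  have hs0 : 0 < Real.sqrt n := Real.sqrt_pos.2 hn0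
  have hss : Real.sqrt n ^ 2 = n := Real.sq_sqrt hn0.le
  have hta : |t| ≤ 1 := by rw [abs_of_pos ht0]; exact ht1.le
  have hca : |c| ≤ 1 := by rw [abs_of_pos hc0]; exact hc1.le
  have hy1 : ∀ x, ‖y x‖ ≤ 1 := fun x => by
    have := hR _ (hyC x)
    nlinarith [norm_nonneg (y x)]
  have hyB : BM y := ⟨hym, fun x => (hy1 x).trans (by norm_num)⟩
  have hMB : BM M := ⟨hM.meas, fun x => (hM.bdd x).trans (by norm_num)⟩
  set s : E n := ∫ x, M x ∂(gm n) with hs
  have hdiam := (hJ2 n C 1 hC).1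
  obtain ⟨yo, ye, m, hm, hyoB, hyo, hyeEV, hdec, hd1, hd2, hd3, hd4⟩ := hDEC n y hym hy1 hyh
  have hyeB := hyeEV.bm
  have hA := hAVC n C M y c hn hM hX hym hyC hy1 hc0 hc1
  have hB := hPRC n C y t hdiam hym hyC hy1 hta
  rw [hd2 t hta] at hB
  rw [hd3 M c hMB hM.even hca] at hA
  have hO := hODQ n yo t hyoB ht0.le ht1.le
  have hF := hform ye hyeEV
  have hye1 : CR ye ye 1 = ∫ x, ‖ye x‖ ^ 2 ∂(gm n) := by
    rw [(hCRB n ye ye c hyeB hyeB hca).2.2.2]
    simp only [real_inner_self_eq_norm_sq]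
  -- integrability
  have iM : Integrable M (gm n) := INT_bdd hP hM.meas _ hM.bdd
  have iW : Integrable W (gm n) := INT_bdd hP hWB.1 _ hWB.2
  have iye : Integrable ye (gm n) := INT_bdd hP hyeB.1 _ hyeB.2
  have inn : ∀ {f h : E n → E n}, BM f → BM h → Integrable (fun x => (inner ℝ (f x) (h x) : ℝ)) (gm n) := by
    intro f h hf hh
    refine INT_bdd hP (hf.1.inner hh.1) 4 (fun x => ?_)
    have h1 := norm_inner_le_norm (𝕜 := ℝ) (f x) (h x)
    have h2 := hf.2 x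
    have h3 := hh.2 x
    nlinarith [norm_nonneg (f x), norm_nonneg (h x)]
  have isq : ∀ {f : E n → E n}, BM f → Integrable (fun x => ‖f x‖ ^ 2) (gm n) := by
    intro f hf
    have := inn hf hf
    simpa only [real_inner_self_eq_norm_sq] using this
  -- CR ye N = CR ye M
  have hN : CR ye (fun x => M x - s) c = CR ye M c := by
    have e1 := (hCRB n ye M c hyeB hMB hca).2.1
    have hNB : BM (fun x => M x - s) := by
      refine ⟨hM.meas.sub_const s, fun x => ?_⟩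
      have hs1 : ‖s‖ ≤ 1 / 2 := by
        have := norm_integral_le_of_norm_le_const (μ := gm n) (f := M) (C := 1 / 2) (Eventually.of_forall hM.bdd)
        simpa using this
      calc ‖M x - s‖ ≤ ‖M x‖ + ‖s‖ := norm_sub_le _ _
        _ ≤ 2 := by linarith [hM.bdd x]
    have e2 := (hCRB n ye (fun x => M x - s) c hyeB hNB hca).2.1
    rw [e1, e2]
    have e3 : ∀ x, PP (fun x => M x - s) c x = PP M c x - s := by
      intro x
      unfold PP
      have hmx : Measurable (fun y : E n => mix c x y) := by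
        unfold mix
        fun_prop
      have i1 : Integrable (fun y => M (mix c x y)) (gm n) := INT_bdd hP (hM.meas.comp hmx) _ (fun _ => hM.bdd _)
      rw [integral_sub i1 (integrable_const s), integral_const]
      simp
    simp only [e3, inner_sub_right]
    have hPB := (hCRB n ye M c hyeB hMB hca).1
    rw [integral_sub (inn hyeB hPB)]
    · rw [INT_const hP iye, hyeEV.mean]
      simp
    · refine INT_bdd hP (hyeB.1.inner measurable_const) (2 * ‖s‖) (fun x => ?_)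
      have h1 := norm_inner_le_norm (𝕜 := ℝ) (ye x) s
      exact h1.trans (mul_le_mul_of_nonneg_right (hyeB.2 x) (norm_nonneg _))
  rw [hN, hye1] at hF
  -- ∫‖N‖²
  have hNN : ∫ x, ‖M x - s‖ ^ 2 ∂(gm n) = (∫ x, ‖M x‖ ^ 2 ∂(gm n)) - ‖s‖ ^ 2 := by
    have e : ∀ x, ‖M x - s‖ ^ 2 = ‖M x‖ ^ 2 - 2 * inner ℝ (M x) s + ‖s‖ ^ 2 := fun x => norm_sub_sq_real _ _
    simp only [e]
    have i2 : Integrable (fun x => (inner ℝ (M x) s : ℝ)) (gm n) := iM.inner_const s
    have j1 : Integrable (fun x => ‖M x‖ ^ 2 - 2 * inner ℝ (M x) s) (gm n) := (isq hMB).sub (i2.const_mul 2)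
    rw [integral_add j1 (integrable_const _), integral_sub (isq hMB) (i2.const_mul 2),
      integral_const_mul, INT_const hP iM, ← hs, real_inner_self_eq_norm_sq]
    simp
    ring
  have hWW : ∫ x, ‖W x - mu • s‖ ^ 2 ∂(gm n) = (∫ x, ‖W x‖ ^ 2 ∂(gm n)) - mu ^ 2 * ‖s‖ ^ 2 := by
    have e : ∀ x, ‖W x - mu • s‖ ^ 2 = ‖W x‖ ^ 2 - 2 * inner ℝ (W x) (mu • s) + ‖mu • s‖ ^ 2 :=
      fun x => norm_sub_sq_real _ _
    simp only [e]
    have i2 : Integrable (fun x => (inner ℝ (W x) (mu • s) : ℝ)) (gm n) := iW.inner_const _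
    have j1 : Integrable (fun x => ‖W x‖ ^ 2 - 2 * inner ℝ (W x) (mu • s)) (gm n) := (isq hWB).sub (i2.const_mul 2)
    rw [integral_add j1 (integrable_const _), integral_sub (isq hWB) (i2.const_mul 2),
      integral_const_mul, INT_const hP iW, hWm, real_inner_self_eq_norm_sq]
    simp only [integral_const, smul_eq_mul, probReal_univ, one_mul, norm_smul, Real.norm_eq_abs, mul_pow, sq_abs]
    ring
  rw [hNN, hWW] at hF
  -- the main expansion
  have hWy : ∫ x, inner ℝ (W x) (y x) ∂(gm n) = (∫ x, inner ℝ (W x) (ye x) ∂(gm n)) + mu * inner ℝ m s := by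
    have e : ∀ x, (inner ℝ (W x) (y x) : ℝ) = inner ℝ (W x) (yo x) + inner ℝ (W x) (ye x) + inner ℝ (W x) m := by
      intro x
      rw [hdec x, inner_add_right, inner_add_right]
    simp only [e]
    have i3 : Integrable (fun x => (inner ℝ (W x) m : ℝ)) (gm n) := iW.inner_const m
    have j1 : Integrable (fun x => (inner ℝ (W x) (yo x) : ℝ) + inner ℝ (W x) (ye x)) (gm n) :=
      (inn hWB hyoB).add (inn hWB hyeB)
    rw [integral_add j1 i3, integral_add (inn hWB hyoB) (inn hWB hyeB),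
      INT_odd hG1 (fun x => (inner ℝ (W x) (yo x) : ℝ)) (fun x => by rw [hWe, hyo, inner_neg_right]),
      INT_const hP iW, hWm, real_inner_smul_left, real_inner_comm s m]
    ring
  have hexp : ∫ x, ‖(a / Real.sqrt n) • x + W x - y x‖ ^ 2 ∂(gm n) =
      a ^ 2 + (∫ x, ‖W x‖ ^ 2 ∂(gm n)) + (∫ x, ‖y x‖ ^ 2 ∂(gm n)) - 2 * (a / Real.sqrt n) * (∫ x, inner ℝ (y x) x ∂(gm n))
        - 2 * (∫ x, inner ℝ (W x) (y x) ∂(gm n)) := by
    have e : ∀ x, ‖(a / Real.sqrt n) • x + W x - y x‖ ^ 2 = (a / Real.sqrt n) ^ 2 * ‖x‖ ^ 2 + ‖W x‖ ^ 2 + ‖y x‖ ^ 2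
        + 2 * (a / Real.sqrt n) * inner ℝ (W x) x - 2 * (a / Real.sqrt n) * inner ℝ (y x) x - 2 * inner ℝ (W x) (y x) := by
      intro x
      rw [norm_sub_sq_real, norm_add_sq_real, inner_add_left, real_inner_smul_left, real_inner_smul_left, norm_smul,
        mul_pow, Real.norm_eq_abs, sq_abs, real_inner_comm x (W x), real_inner_comm x (y x)]
      ring
    simp only [e]
    have j1 := (INT_sq hG1 hG4 hn).1.const_mul ((a / Real.sqrt n) ^ 2)
    have j2 := isq hWB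
    have j3 := isq hyB
    have j4 := (INT_lin hG1 hG4 hn hWB).const_mul (2 * (a / Real.sqrt n))
    have j5 := (INT_lin hG1 hG4 hn hyB).const_mul (2 * (a / Real.sqrt n))
    have j6 := (inn hWB hyB).const_mul 2
    have l1 : Integrable (fun x : E n => (a / Real.sqrt n) ^ 2 * ‖x‖ ^ 2 + ‖W x‖ ^ 2) (gm n) := j1.add j2
    have l2 : Integrable (fun x : E n => (a / Real.sqrt n) ^ 2 * ‖x‖ ^ 2 + ‖W x‖ ^ 2 + ‖y x‖ ^ 2) (gm n) := l1.add j3
    have l3 : Integrable (fun x : E n => (a / Real.sqrt n) ^ 2 * ‖x‖ ^ 2 + ‖W x‖ ^ 2 + ‖y x‖ ^ 2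
        + 2 * (a / Real.sqrt n) * inner ℝ (W x) x) (gm n) := l2.add j4
    have l4 : Integrable (fun x : E n => (a / Real.sqrt n) ^ 2 * ‖x‖ ^ 2 + ‖W x‖ ^ 2 + ‖y x‖ ^ 2
        + 2 * (a / Real.sqrt n) * inner ℝ (W x) x - 2 * (a / Real.sqrt n) * inner ℝ (y x) x) (gm n) := l3.sub j5
    rw [integral_sub l4 j6, integral_sub l3 j5, integral_add l2 j4, integral_add l1 j3, integral_add j1 j2,
      integral_const_mul, integral_const_mul, integral_const_mul, integral_const_mul, (INT_sq hG1 hG4 hn).2,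
      INT_odd hG1 (fun x => (inner ℝ (W x) x : ℝ)) (fun x => by rw [hWe, inner_neg_right])]
    have : (a / Real.sqrt n) ^ 2 * n = a ^ 2 := by
      rw [div_pow, hss]
      field_simp
    rw [this]
    ring
  have hY : ∫ x, ‖y x‖ ^ 2 ∂(gm n) ≤ 1 / 2 := by
    have h1 : ∫ x, ‖y x‖ ^ 2 ∂(gm n) ≤ ∫ x : E n, (1 / 2 : ℝ) ∂(gm n) :=
      integral_mono (isq hyB) (integrable_const _) (fun x => hR _ (hyC x))
    simpa using h1
  rw [hexp, hWy]
  -- abbreviations
  set Y := ∫ x, ‖y x‖ ^ 2 ∂(gm n)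
  set MM := ∫ x, ‖M x‖ ^ 2 ∂(gm n)
  set WW := ∫ x, ‖W x‖ ^ 2 ∂(gm n)
  set YO := ∫ x, ‖yo x‖ ^ 2 ∂(gm n)
  set YE := ∫ x, ‖ye x‖ ^ 2 ∂(gm n)
  set L := ∫ x, inner ℝ (y x) x ∂(gm n)
  set We := ∫ x, inner ℝ (W x) (ye x) ∂(gm n)
  set K := CR ye M c
  set Co := CR yo yo t
  set Ce := CR ye ye t
  rw [← hd4] at hO
  set b : ℝ := L / Real.sqrt n with hb
  have hO' : (1 + t) * b ^ 2 ≤ YO + Co := by
    have h1 : b ^ 2 * n = L ^ 2 := by
      rw [hb, div_pow, hss]
      field_simp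
    have h2 : ((1 + t) * b ^ 2) * n ≤ (YO + Co) * n := by
      calc ((1 + t) * b ^ 2) * n = (1 + t) * (b ^ 2 * n) := by ring
        _ = (1 + t) * L ^ 2 := by rw [h1]
        _ ≤ n * (YO + Co) := hO
        _ = (YO + Co) * n := by ring
    exact le_of_mul_le_mul_right h2 hn0
  have hbal := INT_alg a b mu c p t (YO + Co) hp ht0 hO'
  have e1 : c * L / Real.sqrt n = c * b := by rw [hb]; ring
  have e2 : 2 * (a / Real.sqrt n) * L = 2 * a * b := by rw [hb]; ring
  rw [e1] at hA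
  rw [e2]
  unfold R0
  have hsq : 0 ≤ (mu - mu ^ 2) * ‖s‖ ^ 2 := mul_nonneg (by nlinarith) (sq_nonneg _)
  have k1 : 0 ≤ (1 - mu) * (1 / 2 - Y) := mul_nonneg (by linarith) (by linarith)
  have k2 : 0 ≤ mu * (3 / 4 + 2 / Real.sqrt n - (Y + MM - 2 * (K + inner ℝ m s) - c * b)) :=
    mul_nonneg hmu0 (by linarith)
  have k3 : 0 ≤ p * (1 / 2 - (Y - (-Co + Ce + ‖m‖ ^ 2))) := mul_nonneg hp.le (by linarith)
  have k4 : mu * (2 / Real.sqrt n) ≤ 2 / Real.sqrt n := by
    have : 0 ≤ 2 / Real.sqrt n := by positivity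
    nlinarith
  nlinarith [hF, hbal, hsq, k1, k2, k3, k4, hd1]

end Pool.Agent.CX
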