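import Pool.Agent.helper81.CW.Lower
import Pool.Agent.helper52.CX.ROM
import Pool.Agent.helper59.CX.CRB
import Pool.Agent.helper83.CX.CRS
import Pool.Agent.helper29.CX.CRX
import Pool.Agent.helper3.CX.LCX
import Pool.Agent.helper2.CX.SMT
import Pool.Agent.helper20.CX.SEQ
import Pool.Agent.helper34.CX.SPD
import Pool.Agent.helper32.CX.ODQ
import Pool.Agent.helper69.CX.EVQ
import Pool.Agent.helper14.CX.DEC
import Pool.Agent.helper69.CX.NRQ
import Pool.Agent.helper24.CX.AVC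
import Pool.Agent.helper74.CX.PRC
import Pool.Agent.helper81.CX.INT
import Pool.Agent.helper58.CX.SEL
import Pool.Agent.helper79.CX.LFC
import Pool.Agent.helper20.CX.FRE
import Pool.Agent.helper32.CX.STA
import Pool.Agent.helper69.CX.CEN
import Pool.Agent.helper5.CX.STB
import Pool.Agent.helper25.CX.VO2
import Pool.Agent.helper83.CX.IN2
import Pool.Agent.helper5.CX.ML2
import Pool.Agent.helper69.CX.TA2
import Pool.Agent.helper59.CX.BL2
import Pool.Agent.helper5.CX.SG2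
import Pool.Agent.helper34.CX.AL2
import Pool.Agent.helper43.CX.MPS
import Pool.Agent.helper68.CX.CONE
import Pool.Agent.helper25.CX.CVG
import Pool.Agent.helper25.CX.DTG
import Pool.Agent.helper25.CX.IJG
import Pool.Agent.helper25.CX.GLP
import Pool.Agent.helper25.CX.DER
import Pool.Agent.helper25.CX.ROT
import Pool.Agent.helper25.CX.GVA

/-! # Project cx: assembly -/

set_option autoImplicit false

open Pool.Agent.helper81.CW

namespace Pool.Agent.CX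

theorem a2_G1 : G1_stmt := G1
theorem a2_G2 : G2_stmt := G2
theorem a2_G4 : G4_stmt := G4
theorem a2_GVA : GVA_stmt := GVA a2_G1 a2_G2
theorem a2_ROM : ROM_stmt := ROM a2_G1 ROT
theorem a2_CRB : CRB_stmt := CRB a2_G1 a2_ROM
theorem a2_CRS : CRS_stmt := CRS a2_G1 a2_ROM
theorem a2_CRX : CRX_stmt := CRX a2_G1 a2_G4 a2_ROM
theorem a2_LCX : LCX_stmt := LCX a2_G1 a2_CRB a2_CRS
theorem a2_SMT : SMT_stmt := SMT a2_G1
theorem a2_SPD : SPD_stmt := SPD a2_LCX a2_SMT SEQ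
theorem a2_ODQ : ODQ_stmt := ODQ a2_G1 a2_G4 a2_CRB a2_CRS a2_CRX
theorem a2_EVQ : EVQ_stmt := EVQ a2_G1 a2_CRB a2_CRS a2_SPD
theorem a2_DEC : DEC_stmt := DEC a2_G1 a2_CRB
theorem a2_NRQ : NRQ_stmt := NRQ a2_G1 a2_G4 a2_GVA
theorem a2_AVC : AVC_stmt := AVC a2_G1 a2_G4 a2_ROM a2_CRB a2_CRX a2_NRQ
theorem a2_PRC : PRC_stmt := PRC a2_G1 a2_ROM a2_CRB
theorem a2_INT : INT_stmt := INT a2_G1 a2_G4 J2 a2_CRB a2_ODQ a2_DEC a2_AVC a2_PRC
theorem a2_LFC : LFC_stmt := LFC a2_G1 a2_G4 a2_GVA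
theorem a2_FRE : FRE_stmt := FRE a2_G1 J2 a2_NRQ a2_INT SEL
theorem a2_STA : STA_stmt := STA a2_G1 J2 a2_LFC a2_FRE
theorem a2_CEN : CEN_stmt := CEN a2_G1 J2
theorem a2_STB : STB_stmt := STB a2_G1 a2_CRB a2_EVQ a2_STA
theorem a2_MPS : MPS_stmt := MPS J2 J4
theorem a2_CON : CON_stmt := CON a2_G1
theorem a2_CVG : CVG_stmt := CVG GLP DER DTG IJG
theorem a2_VO2 : VO2_stmt := VO2 a2_G1 J1 J2 J3 a2_MPS a2_CVG a2_CON a2_CEN a2_STB
theorem a2_IN2 : IN2_stmt := IN2 a2_G1 J1 J2 J3 a2_MPS a2_CON a2_CEN a2_STB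
theorem a2_ML2 : ML2_stmt := ML2 a2_VO2
theorem a2_TA2 : TA2_stmt := TA2 a2_ML2
theorem a2_BL2 : BL2_stmt := BL2 a2_ML2
theorem a2_SG2 : SG2_stmt := SG2 G6 J2 J3 a2_IN2
theorem a2_AL2 : AL2_stmt := AL2 a2_SG2

end Pool.Agent.CX
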