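import Pool.Agent.helper25.CX.SpecB

/-!
# Project cx, part 2 (MP_447e26_gt): the integrated certificate

**Theorem.** For all large `n` every body `C ⊆ ℝ^n` of constant width has volume at least `0.8189^n` times the volume of the ball of the
same width (Schramm 1988: `(√3 - 1 + o(1))^n`, `0.7320...`), and `σ_n ≥ 0.7808^n`.

Notation of Pool/Agent/helper25/CX/Spec.lean: width `1`, `‖y‖² ≤ 1/2` on `C`, `un x = x/‖x‖`, `M` = even part of the support map (`EvenMap M`, MPS), `s = ∫ M`,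
`N = M - s`, `gm n` = Gaussian measure; all integrals are over `gm n`. `mix t x y = t x + √(1-t²) y`; if `x, y` are independent then `mix t x y` is distributed as
`x` (correlation t). `CR f g t = E⟪f(x), g(mix t x y)⟫`.

Idea. `z x = a un x + W x`, `W` even and Lipschitz on the sphere, `∫ W = mu s`. Claim: `E far(C, z x)² ≤ 1 - η`. As `far(C, z x)` is Lipschitz on the sphere it is
concentrated (LFC), so `z x` and `z (-x)` are in `C` for all `x` outside a small set. To prove the claim let `y x ∈ C` be (almost) the point of `C` farthest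
from `z x` (SEL). We know in the mean
(A) `E‖y x - X(mix c x x')‖² ≤ 1`, `X = M + un/2` (AVC), (B) `E‖y‖² ≤ 1/2`, (C) `E‖y x - y(mix (-t) x x')‖² ≤ 1` (PRC),
and `1 - E‖z - y‖²` is `(1-mu) (B) + mu (A) + p (C)` plus a quadratic form which is nonnegative (INT): its odd part by ODQ, its even part because the
correlations of EVEN maps with mean `0` decrease: `CR f f (s t) ≤ t² CR f f s` (SPD).

RULES. Row `cx:XX`: file `Pool/Agent/<seat>/CX/XX.lean` (not CON, PRN, AUX: reserved file names), `import Pool.Agent.helper81.CX.Spec2`,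
`set_option autoImplicit false`, namespace `Pool.Agent.CX`, `open MeasureTheory Set Filter Topology`, `open scoped ENNReal`,
`open Pool.Agent.helper81.CW`, theorem line in the lock note, other rows only as hypotheses (also `G1_stmt` ... `J6_stmt` of
Pool/Agent/helper81/CW/Spec2.lean, all proved), auxiliary lemmas prefixed `XX_`. No double quotes, no `convert`, no `congr!`.
-/

set_option autoImplicit false

open MeasureTheory Set Filter Topology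
open scoped ENNReal
open Pool.Agent.helper81.CW

noncomputable section

namespace Pool.Agent.CX

/-! ### Definitions -/

/-- `t x + √(1-t²) y` -/
def mix {n : ℕ} (t : ℝ) (x y : E n) : E n := t • x + Real.sqrt (1 - t ^ 2) • y

/-- measurable and bounded by `2` -/
def BM {n : ℕ} (f : E n → E n) : Prop := Measurable f ∧ ∀ x, ‖f x‖ ≤ 2

/-- The Mehler operator: `PP f t x = E f(mix t x y)`. -/
def PP {n : ℕ} (f : E n → E n) (t : ℝ) (x : E n) : E n := ∫ y, f (mix t x y) ∂(gm n)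

/-- `CR f g t = E⟪f(x), g(mix t x y)⟫` -/
def CR {n : ℕ} (f g : E n → E n) (t : ℝ) : ℝ := ∫ x, ∫ y, inner ℝ (f x) (g (mix t x y)) ∂(gm n) ∂(gm n)

/-- bounded, measurable, even, invariant under positive dilations, mean `0` -/
structure EV {n : ℕ} (f : E n → E n) : Prop where
  bm : BM f
  even : ∀ x, f (-x) = f x
  hom : ∀ (x : E n) (t : ℝ), 0 < t → f (t • x) = f x
  mean : ∫ x, f x ∂(gm n) = 0

/-! ### Correlations -/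

/-- **ROM** (short-medium, 60 lines; G1, ROT). Proof. `α = cos θ`, `β = sin θ` (`Complex.arg`, or `Real.cos_arccos` and the sign of `β`). ROT says that the push-forward
of `(gm n).prod (gm n)` has the same lintegrals of measurable functions (`lintegral_prod`, `lintegral_map`, `Measure.ext`). The second claim: compose with `Prod.fst`
(`measurePreserving_fst`; `gm n` is a probability measure). -/
def ROM_stmt : Prop := ∀ (n : ℕ) (α β : ℝ), α ^ 2 + β ^ 2 = 1 →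
  MeasurePreserving (fun p : E n × E n => (α • p.1 + β • p.2, -β • p.1 + α • p.2)) ((gm n).prod (gm n)) ((gm n).prod (gm n)) ∧
  MeasurePreserving (fun p : E n × E n => α • p.1 + β • p.2) ((gm n).prod (gm n)) (gm n)

/-- **CRB** (short-medium, 80 lines; G1, ROM). Basic facts. Proof. Measurability: `StronglyMeasurable.integral_prod_right'` or `MeasureTheory.StronglyMeasurable.integral_prod_left`;
the bound: `norm_integral_le_of_norm_le_const`. `CR f g t = ∫ ⟪f x, PP g t x⟫`: `integral_inner` (the inner integral; everything bounded). `mix 1 x y = x`. -/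
def CRB_stmt : Prop := ∀ (n : ℕ) (f g : E n → E n) (t : ℝ), BM f → BM g → |t| ≤ 1 →
  BM (PP g t) ∧ (CR f g t = ∫ x, inner ℝ (f x) (PP g t x) ∂(gm n)) ∧ (∫ x, PP g t x ∂(gm n) = ∫ x, g x ∂(gm n)) ∧
    CR f g 1 = ∫ x, inner ℝ (f x) (g x) ∂(gm n)

/-- **CRS** (medium, 120 lines; G1, ROM). The semigroup law. Proof. The right side is the integral over `x, y, z` of `⟪f(mix s x y), g(mix t x z)⟫`. For fixed `z` substitute (ROM with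
`α = s`, `β = -s'`, `s' = √(1-s²)`) `(x, y) = (s u - s' w, s' u + s w)`: `mix s x y = u`, `mix t x z = s t u - t s' w + t' z`. For fixed `u` and
`r = √(t² s'² + t'²) = √(1 - s² t²)`, `r > 0`: ROM (second part, `α = -t s'/r`, `β = t'/r`): `-t s' w + t' z` is distributed as `r v`. If `r = 0` then `s = t = 1`: trivial.
(All integrands are bounded, `integral_prod`, `integral_prod_symm`, `MeasurePreserving.integral_comp'`; or work with `integral_map`.) -/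
def CRS_stmt : Prop := ∀ (n : ℕ) (f g : E n → E n) (s t : ℝ), BM f → BM g → 0 ≤ s → s ≤ 1 → 0 ≤ t → t ≤ 1 →
  CR f g (s * t) = ∫ x, inner ℝ (PP f s x) (PP g t x) ∂(gm n)

/-- **CRX** (short-medium, 80 lines; G1, G4, ROM). Linear functions. Proof. (1) The inner integral is `t ⟪f x, x⟫ + √(1-t²) ⟪f x, ∫ y⟫`, and `∫ y = 0` (G1, symmetry; `‖y‖` is integrable
because `∫ ‖y‖²` is finite: G4 with `ψ = 1` gives `∫‖y‖² = n`; if it were not integrable the integral would be `0`, so for `n ≥ 1` it is integrable; `n = 0` trivial). (2) is the integral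
over `x, y` of `⟪f(mix t x y), x⟫`; substitute `(x, y) = (t u - t' w, t' u + t w)` (ROM): `⟪f u, t u - t' w⟫`. -/
def CRX_stmt : Prop := ∀ (n : ℕ) (f : E n → E n) (t : ℝ), BM f → |t| ≤ 1 →
  ((∫ x, ∫ y, inner ℝ (f x) (mix t x y) ∂(gm n) ∂(gm n)) = t * ∫ x, inner ℝ (f x) x ∂(gm n)) ∧
    (∫ x, inner ℝ (PP f t x) x ∂(gm n)) = t * ∫ x, inner ℝ (f x) x ∂(gm n)

/-- **LCX** (short-medium, 60 lines; G1, CRB, CRS). Log-convexity. Proof. `s = √(c^j)`, `t = √(c^(j+2))`, `s t = c^(j+1)`: CRS and Cauchy-Schwarz: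
`CR f f (s t)² ≤ ∫‖PP f s‖² ∫‖PP f t‖² = CR f f (s²) CR f f (t²)` (CRS again). -/
def LCX_stmt : Prop := ∀ (n : ℕ) (f : E n → E n) (c : ℝ), BM f → 0 ≤ c → c ≤ 1 → ∀ j : ℕ,
  0 ≤ CR f f (c ^ j) ∧ CR f f (c ^ (j + 1)) ^ 2 ≤ CR f f (c ^ j) * CR f f (c ^ (j + 2))

/-- **SMT** (medium-long, 150 lines; G1). Small correlations of even maps. Proof. Let `0 < t ≤ 1/2`, `t' = √(1-t²)`, `v = (t/t') x`. By `hom` `f(mix t x y) = f(v + y)`. By translation (density of `gm n`)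
`∫ f(v + y) dgm(y) = ∫ f(y) exp(⟪v,y⟫ - ‖v‖²/2) dgm(y)`. As `f` is even, `CR f f t` (substitute `-x` for `x` and average) is the integral over `x` of `⟪f x, I x⟫`,
`I x = ∫ f(y) (cosh⟪v,y⟫ exp(-‖v‖²/2) - 1) dgm(y)` (`∫ f = 0`). `|cosh A exp(-B) - 1| ≤ (cosh A - 1) + B` for `B ≥ 0`, and `∫ (cosh⟪v,y⟫ - 1) dgm(y) = exp(‖v‖²/2) - 1` (translation again). So
`‖I x‖ ≤ 2 (exp(‖v‖²/2) - 1 + ‖v‖²/2) ≤ 4 (exp(‖v‖²/2) - 1)`. `‖v‖²/2 ≤ (2/3) t² ‖x‖² = (4 t²) (‖x‖²/6)`, and `exp(θ w) - 1 ≤ θ (exp w - 1)` for `0 ≤ θ ≤ 1` (convexity): `‖I x‖ ≤ 16 t² (exp(‖x‖²/6) - 1)`.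
`K = 32 ∫ exp(‖x‖²/6) dgm < ∞`. -/
def SMT_stmt : Prop := ∀ (n : ℕ) (f : E n → E n), EV f → ∃ K : ℝ, ∀ t : ℝ, 0 < t → t ≤ 1 / 2 → CR f f t ≤ K * t ^ 2

/-- **SEQ** (short, 60 lines, real sequences). Proof. Suppose `a (j+1) > q (a j)`. Then `a j > 0` (if `a j = 0` then `a (j+1)² ≤ 0`). `r = a (j+1)/a j > q`; by induction `a (i+1) ≥ r a i > 0` for `i ≥ j`
(`a (i+1)² ≤ a i a (i+2)`), so `a (j+i) ≥ r^i a j`; with `a (j+i) ≤ K q^(j+i)` this gives `(r/q)^i ≤ K q^j/a j` for all large `i`: contradiction. -/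
def SEQ_stmt : Prop := ∀ (a : ℕ → ℝ) (q K : ℝ), 0 < q → (∀ j, 0 ≤ a j) → (∀ j, a (j + 1) ^ 2 ≤ a j * a (j + 2)) →
  (∀ᶠ j in atTop, a j ≤ K * q ^ j) → ∀ j, a (j + 1) ≤ q * a j

/-- **SPD** (short, 40 lines; LCX, SMT, SEQ). Spectral gap `2` for even maps. Proof. SEQ for `a j = CR f f (c^j)`, `q = c²`; `c^j ≤ 1/2` for large `j`. -/
def SPD_stmt : Prop := ∀ (n : ℕ) (f : E n → E n) (c : ℝ), EV f → 0 < c → c < 1 →
  CR f f c ≤ c ^ 2 * CR f f 1 ∧ CR f f (c ^ 2) ≤ c ^ 2 * CR f f c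

/-! ### The quadratic form -/

/-- **ODQ** (short-medium, 60 lines; G1, G4, CRB, CRS, CRX). Proof. `CR f f t = ∫‖PP f √t‖²` (CRS). Cauchy-Schwarz: `(∫⟪g, x⟫)² ≤ ∫‖g‖² ∫‖x‖² = n ∫‖g‖²` (G4 with `ψ = 1`), once for `g = f` and once for
`g = PP f √t`, where `∫⟪g, x⟫ = √t ∫⟪f, x⟫` (CRX): `(∫⟪f,x⟫)² ≤ n ∫‖f‖²`, `t (∫⟪f,x⟫)² ≤ n CR f f t`. -/
def ODQ_stmt : Prop := ∀ (n : ℕ) (f : E n → E n) (t : ℝ), BM f → 0 ≤ t → t ≤ 1 →
  (1 + t) * (∫ x, inner ℝ (f x) x ∂(gm n)) ^ 2 ≤ (n : ℝ) * ((∫ x, ‖f x‖ ^ 2 ∂(gm n)) + CR f f t)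

/-- **EVQ** (short-medium, 80 lines; G1, CRB, CRS, SPD). The even part for `W = kap s + b M`, `g = N`. Proof. By SPD `CR f f t ≤ t² CR f f 1`. `CR f g c = ∫⟪f, PP g c⟫`. With
`A = p (1 - t²) > 0`: `2⟪f, h⟫ ≥ -A ‖f‖² - ‖h‖²/A` for `h = b g - mu PP g c`, and `∫‖h‖² = b² CR g g 1 - 2 b mu CR g g c + mu² CR g g (c²) ≤ (b - mu c²)² CR g g 1` by SPD
(`CR g g (c²) ≤ c² CR g g c`, then `(mu² c² - 2 b mu) CR g g c ≤ (mu² c² - 2 b mu) c² CR g g 1`, the factor is `≥ 0`), `≤ A (mu - b²) CR g g 1`. -/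
def EVQ_stmt : Prop := ∀ (n : ℕ) (f g : E n → E n) (b mu p t c : ℝ), EV f → EV g → 0 ≤ b → 0 ≤ mu → 0 < p → 0 < t → t < 1 → 0 < c → c < 1 →
  2 * b ≤ mu * c ^ 2 → (b - mu * c ^ 2) ^ 2 ≤ p * (1 - t ^ 2) * (mu - b ^ 2) →
  0 ≤ p * (CR f f 1 - CR f f t) + 2 * b * (∫ x, inner ℝ (g x) (f x) ∂(gm n)) - 2 * mu * CR f g c + (mu - b ^ 2) * CR g g 1

/-- **DEC** (medium, 100 lines; G1, CRB). Even and odd parts. `yo x = (y x - y(-x))/2`, `ye x = (y x + y(-x))/2 - m`, `m = ∫ y`. Proof. `y = yo + ye + m`. Substituting `-x` for `x` and `-y` for `y` (G1) the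
mixed terms of an odd and an even map are `0`; `CR f g (-t)` is `- CR f g t` for `g` odd and `CR f g t` for `g` even (substitute `-y` for `y`); `CR` of a constant and `ye` is `0` (CRB, mean `0`). -/
def DEC_stmt : Prop := ∀ (n : ℕ) (y : E n → E n), Measurable y → (∀ x, ‖y x‖ ≤ 1) → (∀ (x : E n) (r : ℝ), 0 < r → y (r • x) = y x) →
  ∃ (yo ye : E n → E n) (m : E n), m = ∫ x, y x ∂(gm n) ∧ BM yo ∧ (∀ x, yo (-x) = - yo x) ∧ EV ye ∧ (∀ x, y x = yo x + ye x + m) ∧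
    ((∫ x, ‖y x‖ ^ 2 ∂(gm n)) = (∫ x, ‖yo x‖ ^ 2 ∂(gm n)) + (∫ x, ‖ye x‖ ^ 2 ∂(gm n)) + ‖m‖ ^ 2) ∧
    (∀ t : ℝ, |t| ≤ 1 → CR y y (-t) = - CR yo yo t + CR ye ye t + ‖m‖ ^ 2) ∧
    (∀ (g : E n → E n) (t : ℝ), BM g → (∀ x, g (-x) = g x) → |t| ≤ 1 → CR y g t = CR ye g t + inner ℝ m (∫ x, g x ∂(gm n))) ∧
    (∫ x, inner ℝ (y x) x ∂(gm n)) = ∫ x, inner ℝ (yo x) x ∂(gm n)

/-- **NRQ** (short, 50 lines; G1, G4, GVA). Proof. `∫‖x‖² = n` (G4 with `ψ = 1`), `m = ∫‖x‖`, `n ≤ 1 + m²` (GVA with `g = ‖·‖`, `R = 1`), so `m/√n ≥ √(1 - 1/n) ≥ 1 - 1/n`. The integral is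
`2 - 2 m/√n ≤ 2/n`. -/
def NRQ_stmt : Prop := ∀ n : ℕ, 1 ≤ n → Integrable (fun x : E n => (‖x‖ / Real.sqrt n - 1) ^ 2) (gm n) ∧
  ∫ x : E n, (‖x‖ / Real.sqrt n - 1) ^ 2 ∂(gm n) ≤ 2 / (n : ℝ)

/-- **AVC** (medium, 120 lines; G1, G4, ROM, CRB, CRX, NRQ). Constraint (A). Proof. `x' = mix c x z`, not `0` almost surely. `‖y x - M x' - x'/(2√n)‖ ≤ 1 + δ`, `δ = |‖x'‖/√n - 1|/2`. `x'` is distributed as `x` (ROM), so
`E (1 + δ)² ≤ 1 + 2 √(E δ²) + E δ² ≤ 1 + √(2/n) + 1/(2n) ≤ 1 + 2/√n` (NRQ). Expand: `E‖y‖² + E‖M‖² + 1/4 - 2 CR y M c - E⟪y x, x'⟫/√n + E⟪M x', x'⟫/√n`, the last term is `0` (`M` is even),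
`E⟪y x, x'⟫ = c ∫⟪y x, x⟫` (CRX). -/
def AVC_stmt : Prop := ∀ (n : ℕ) (C : Set (E n)) (M y : E n → E n) (c : ℝ), 1 ≤ n → EvenMap M →
  (∀ x : E n, x ≠ 0 → ∀ v ∈ C, ‖v - (M x + (1 / 2 : ℝ) • un x)‖ ≤ 1) → Measurable y → (∀ x, y x ∈ C) → (∀ x, ‖y x‖ ≤ 1) → 0 < c → c < 1 →
  (∫ x, ‖y x‖ ^ 2 ∂(gm n)) + (∫ x, ‖M x‖ ^ 2 ∂(gm n)) - 2 * CR y M c - c * (∫ x, inner ℝ (y x) x ∂(gm n)) / Real.sqrt n ≤
    3 / 4 + 2 / Real.sqrt n

/-- **PRC** (short, 50 lines; G1, ROM, CRB). Constraint (C). Proof. `‖y x - y x'‖² ≤ 1` for `x' = mix (-t) x z`; expand and integrate; `x'` is distributed as `x`. -/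
def PRC_stmt : Prop := ∀ (n : ℕ) (C : Set (E n)) (y : E n → E n) (t : ℝ), (∀ u ∈ C, ∀ v ∈ C, ‖u - v‖ ≤ 1) → Measurable y → (∀ x, y x ∈ C) →
  (∀ x, ‖y x‖ ≤ 1) → |t| ≤ 1 → (∫ x, ‖y x‖ ^ 2 ∂(gm n)) - CR y y (-t) ≤ 1 / 2

/-- The constant of the certificate. -/
def R0 (a mu p t c : ℝ) : ℝ := 1 / 2 - mu / 4 - p / 2 - a ^ 2 - (a - mu * c / 2) ^ 2 / (p * (1 + t))

/-- **INT** (medium, 150 lines; G1, G4, CRB, ODQ, DEC, AVC, PRC). The integrated inequality. Proof. `v = x/√n`, `∫‖v‖² = 1`, `y = yo + ye + m` (DEC), `β = ∫⟪yo, v⟫`. Since `W`, `M` are even the odd terms vanish and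
`∫‖a v + W - y‖² = a² + ∫‖W‖² + ∫‖y‖² - 2 a β - 2 ∫⟪W, ye⟫ - 2 ⟪mu s, m⟫`. Add `(1-mu)(1/2 - ∫‖y‖²) ≥ 0`, `mu` times AVC and `p` times PRC, where `CR y M c = CR ye N c + ⟪m, s⟫`
(`CR ye M c = CR ye N c` because `∫ ye = 0`), `∫‖M‖² = ∫‖N‖² + ‖s‖²`, `∫‖W‖² = ∫‖W - mu s‖² + mu² ‖s‖²`, `CR y y (-t) = - CR yo yo t + CR ye ye t + ‖m‖²`. All terms with `m` cancel; with `s` remains
`(mu - mu²)‖s‖² ≥ 0`. Result: `1 - ∫‖a v + W - y‖² ≥ 1/2 - mu/4 - p/2 - a² - 2 mu/√n + [p (∫‖yo‖² + CR yo yo t) + (2a - mu c) β] + [the form of the hypothesis for f = ye]`. ODQ: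
`∫‖yo‖² + CR yo yo t ≥ (1+t) β²`, so the first bracket is `≥ -(a - mu c/2)²/(p (1+t))`. -/
def INT_stmt : Prop := ∀ (n : ℕ) (C : Set (E n)) (M W y : E n → E n) (a mu p t c g : ℝ), 1 ≤ n → ConstWidth C 1 → (∀ v ∈ C, ‖v‖ ^ 2 ≤ 1 / 2) →
  EvenMap M → (∀ x : E n, x ≠ 0 → ∀ v ∈ C, ‖v - (M x + (1 / 2 : ℝ) • un x)‖ ≤ 1) → 0 ≤ mu → mu ≤ 1 → 0 < p → 0 < t → t < 1 → 0 < c → c < 1 →
  BM W → (∀ x, W (-x) = W x) → (∫ x, W x ∂(gm n) = mu • ∫ x, M x ∂(gm n)) →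
  (∀ f : E n → E n, EV f → g ≤ p * (CR f f 1 - CR f f t) + 2 * (∫ x, inner ℝ (W x) (f x) ∂(gm n)) -
    2 * mu * CR f (fun x => M x - ∫ z, M z ∂(gm n)) c + mu * (∫ x, ‖M x - ∫ z, M z ∂(gm n)‖ ^ 2 ∂(gm n)) -
    ∫ x, ‖W x - mu • ∫ z, M z ∂(gm n)‖ ^ 2 ∂(gm n)) →
  Measurable y → (∀ x, y x ∈ C) → (∀ (x : E n) (r : ℝ), 0 < r → y (r • x) = y x) →
  ∫ x, ‖(a / Real.sqrt n) • x + W x - y x‖ ^ 2 ∂(gm n) ≤ 1 - R0 a mu p t c - g + 2 / Real.sqrt n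

/-! ### Concentration, the points of `C` -/

/-- **SEL** (short-medium, 60 lines; `FAR` of Pool/Agent/helper12/CL/FAR.lean). Measurable choice. Proof. `D : ℕ → E n` a dense sequence of `C` (`IsCompact.isSeparable`, `exists_countable_dense` of the subtype). For every `v`
there is `j` with `‖v - D j‖ ≥ far C v - ε` (the supremum is attained, density); `y x = D (Nat.find ..)` for `v = z x` (`measurable_find`, `measurable_from_nat`; `far C` is `1`-Lipschitz).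
`y x` depends only on `z x`. -/
def SEL_stmt : Prop := ∀ (n : ℕ) (C : Set (E n)) (z : E n → E n) (ε : ℝ), IsCompact C → C.Nonempty → Measurable z → 0 < ε →
  (∀ (x : E n) (r : ℝ), 0 < r → z (r • x) = z x) →
  ∃ y : E n → E n, Measurable y ∧ (∀ x, y x ∈ C) ∧ (∀ (x : E n) (r : ℝ), 0 < r → y (r • x) = y x) ∧
    ∀ x, Pool.Agent.CL.far C (z x) - ε ≤ ‖z x - y x‖

/-- **LFC** (short-medium, 70 lines; G1, G4, GVA). Concentration of Lipschitz functions on the sphere. Proof. `m = ∫ φ`, `|φ - m| ≤ 4`. `f x = ‖x‖ (φ x - m)` is `12`-Lipschitz (`‖y‖ ‖un x - un y‖ ≤ 2 ‖x - y‖`, as in GLP),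
GVA: `∫ f² ≤ 144 + (∫ f)²`, `∫ f = ∫ (‖x‖ - ∫‖·‖) (φ - m)`, so `(∫ f)² ≤ 16 ∫ (‖x‖ - ∫‖·‖)² ≤ 16` (GVA for the norm). `n ∫ (φ - m)² = ∫ f² ≤ 160` (G4 for `(φ - m)²`). -/
def LFC_stmt : Prop := ∀ (n : ℕ) (φ : E n → ℝ), Measurable φ → (∀ x, 0 ≤ φ x) → (∀ x, φ x ≤ 4) → (∀ (x : E n) (r : ℝ), 0 < r → φ (r • x) = φ x) →
  (∀ x y : E n, x ≠ 0 → y ≠ 0 → |φ x - φ y| ≤ 4 * ‖un x - un y‖) →
  n * ∫ x, (φ x - ∫ z, φ z ∂(gm n)) ^ 2 ∂(gm n) ≤ 160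

/-- **FRE** (medium, 120 lines; G1, J2, NRQ, INT, SEL, FAR). Proof. `z x = a un x + W x` (0-homogeneous), `y` from SEL with `ε = 1/√n`. `far C (z x) ≤ ‖z x - y x‖ + ε ≤ ‖(a/√n) x + W x - y x‖ + δ`, `δ = a |‖x‖/√n - 1| + ε`
(`‖un x - x/√n‖ = |‖x‖/√n - 1|` for `x ≠ 0`). Minkowski or `(A + δ)² ≤ (1 + 1/m) A² + (1 + m) δ²`: `∫ far² ≤ (1 + 1/m)(1 - η + 2/√n) + (1 + m)(4/n + 2/n)`, first choose `m` large (depending on `η`), then `n`: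
at most `1 - η/2`. -/
def FRE_stmt : Prop := ∀ η : ℝ, 0 < η → ∀ᶠ n : ℕ in atTop, ∀ (C : Set (E n)) (M W : E n → E n) (a mu p t c g : ℝ), ConstWidth C 1 → (∀ v ∈ C, ‖v‖ ^ 2 ≤ 1 / 2) →
  EvenMap M → (∀ x : E n, x ≠ 0 → ∀ v ∈ C, ‖v - (M x + (1 / 2 : ℝ) • un x)‖ ≤ 1) → 0 ≤ a → a ≤ 1 → 0 ≤ mu → mu ≤ 1 → 0 < p → 0 < t → t < 1 → 0 < c → c < 1 →
  BM W → (∀ x, W (-x) = W x) → (∀ (x : E n) (r : ℝ), 0 < r → W (r • x) = W x) → (∫ x, W x ∂(gm n) = mu • ∫ x, M x ∂(gm n)) →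
  (∀ f : E n → E n, EV f → g ≤ p * (CR f f 1 - CR f f t) + 2 * (∫ x, inner ℝ (W x) (f x) ∂(gm n)) -
    2 * mu * CR f (fun x => M x - ∫ z, M z ∂(gm n)) c + mu * (∫ x, ‖M x - ∫ z, M z ∂(gm n)‖ ^ 2 ∂(gm n)) -
    ∫ x, ‖W x - mu • ∫ z, M z ∂(gm n)‖ ^ 2 ∂(gm n)) →
  η ≤ R0 a mu p t c + g →
  ∫ x, Pool.Agent.CL.far C (a • un x + W x) ^ 2 ∂(gm n) ≤ 1 - η / 2

/-- **STA** (medium, 100 lines; G1, J2, LFC, FRE, FAR). Proof. `φ x = far C (a un x + W x)`: `0 ≤ φ ≤ 4`, 0-homogeneous, `4`-Lipschitz in `un x`. `(∫ φ)² ≤ ∫ φ² ≤ 1 - η/2`, so `∫ φ ≤ 1 - η/4`. LFC and Chebyshev: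
`gm {φ > 1} ≤ (160/n)/(η/4)²`. The same for `-x` (`gm` is symmetric), and `{0}` is a null set (`n ≥ 1`). Outside these sets `φ x ≤ 1` and `φ(-x) ≤ 1`, so both points are in `C` by completeness (J2; `W` is even). -/
def STA_stmt : Prop := ∀ η : ℝ, 0 < η → ∀ᶠ n : ℕ in atTop, ∀ (C : Set (E n)) (M W : E n → E n) (a mu p t c g : ℝ), ConstWidth C 1 → (∀ v ∈ C, ‖v‖ ^ 2 ≤ 1 / 2) →
  EvenMap M → (∀ x : E n, x ≠ 0 → ∀ v ∈ C, ‖v - (M x + (1 / 2 : ℝ) • un x)‖ ≤ 1) → 0 ≤ a → a ≤ 1 → 0 ≤ mu → mu ≤ 1 → 0 < p → 0 < t → t < 1 → 0 < c → c < 1 →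
  BM W → (∀ x, W (-x) = W x) → (∀ (x : E n) (r : ℝ), 0 < r → W (r • x) = W x) → (∫ x, W x ∂(gm n) = mu • ∫ x, M x ∂(gm n)) →
  (∀ x y : E n, x ≠ 0 → y ≠ 0 → ‖W x - W y‖ ≤ ‖un x - un y‖) →
  (∀ f : E n → E n, EV f → g ≤ p * (CR f f 1 - CR f f t) + 2 * (∫ x, inner ℝ (W x) (f x) ∂(gm n)) -
    2 * mu * CR f (fun x => M x - ∫ z, M z ∂(gm n)) c + mu * (∫ x, ‖M x - ∫ z, M z ∂(gm n)‖ ^ 2 ∂(gm n)) -
    ∫ x, ‖W x - mu • ∫ z, M z ∂(gm n)‖ ^ 2 ∂(gm n)) →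
  η ≤ R0 a mu p t c + g →
  gm n {x : E n | x ≠ 0 ∧ a • un x + W x ∈ C ∧ -(a • un x) + W x ∈ C}ᶜ ≤ ENNReal.ofReal η

/-- **CEN** (short, 50 lines; G1, J2). Proof. `0 ∈ C` by completeness (`‖v‖ ≤ 1` on `C`). `∫ M = ∫ (M x + un x/2)` (`un` is odd) is in `C` (`Convex.integral_mem`, `C` is closed and convex). Convexity. -/
def CEN_stmt : Prop := ∀ (n : ℕ) (C : Set (E n)) (M : E n → E n), 1 ≤ n → ConstWidth C 1 → (∀ v ∈ C, ‖v‖ ^ 2 ≤ 1 / 2) → EvenMap M →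
  (∀ x : E n, x ≠ 0 → M x + (1 / 2 : ℝ) • un x ∈ C) → ∀ k : ℝ, 0 ≤ k → k ≤ 1 → k • (∫ x, M x ∂(gm n)) ∈ C

/-- **STB** (medium, 100 lines; G1, EVQ, STA). The case `W = (mu - b) s + b M`. Proof. `N = M - s` is `EV` (`‖N‖ ≤ 1`); `W - mu s = b N`; `∫⟪W, f⟫ = b ∫⟪N, f⟫` for `EV f` (`∫ f = 0`); EVQ with `g = N` gives the hypothesis of STA with `g = 0`.
`‖W‖ ≤ mu/2`, `b ≤ 1` (`2 b ≤ mu c² ≤ 1`). -/
def STB_stmt : Prop := ∀ (a b mu p t c : ℝ), 0 ≤ a → a ≤ 1 → 0 ≤ b → 0 ≤ mu → mu ≤ 1 → 0 < p → 0 < t → t < 1 → 0 < c → c < 1 →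
  2 * b ≤ mu * c ^ 2 → (b - mu * c ^ 2) ^ 2 ≤ p * (1 - t ^ 2) * (mu - b ^ 2) → 0 < R0 a mu p t c → ∀ ε : ℝ, 0 < ε →
  ∀ᶠ n : ℕ in atTop, ∀ (C : Set (E n)) (M : E n → E n), ConstWidth C 1 → (∀ v ∈ C, ‖v‖ ^ 2 ≤ 1 / 2) →
  EvenMap M → (∀ x : E n, x ≠ 0 → ∀ v ∈ C, ‖v - (M x + (1 / 2 : ℝ) • un x)‖ ≤ 1) →
  gm n {x : E n | x ≠ 0 ∧ a • un x + ((mu - b) • (∫ z, M z ∂(gm n)) + b • M x) ∈ C ∧
    -(a • un x) + ((mu - b) • (∫ z, M z ∂(gm n)) + b • M x) ∈ C}ᶜ ≤ ENNReal.ofReal ε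

/-! ### The results -/

/-- **VO2** (medium, 120 lines; G1, J1, J2, J3, MPS, CVG, CON, CEN, STB). The volume. Proof. `a = 0.42456`, `b = 0.2243`, `mu = 0.7412`, `p = 0.1759`, `t = 0.3605`, `c = 0.861`: `R0 > 0`, and `2 √(a² - b²/4) > 0.81895`. By J1 and J3 (`t = 1`) we may assume `‖y‖² ≤ 1/2` on `C`. `M` from
MPS, `s = ∫ M`, `S` the set of STB (symmetric cone, measurable), `gm n S ≥ 1/2`, `A = S ∩ closedBall 0 1`, CON: `vol A ≥ (1/2) vol (closedBall 0 1)`. For `x ∈ A`: `(mu - b) s + Pg a b M x = (1 - ‖x‖) ((mu - b) s) + ‖x‖ (a un x + (mu - b) s + b M x) ∈ C`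
(CEN, convexity). So `vol C ≥ vol (Pg a b M '' A) ≥ √(a² - b²/4)^n (1/2) 2^n vol (closedBall 0 (1/2))` (CVG), and `(0.81895)^n/2 ≥ 0.8189^n` for large `n`. -/
def VO2_stmt : Prop := ∀ᶠ n : ℕ in atTop, ∀ C : Set (E n), ConstWidth C 1 →
  ENNReal.ofReal (0.8189 ^ n) * volume (Metric.closedBall (0 : E n) (1 / 2)) ≤ volume C

/-- **IN2** (medium, 120 lines; G1, J1, J2, J3, MPS, CON, CEN, STB). The symmetric part. Proof. `a = 0.39043`, `b = 0`, `mu = 0.6527`, `p = 0.23875`, `t = 0.374`, `c = 0.7489`: `R0 > 0`. As VO2: `z = mu s`, for `x ∈ S`: `z ± a un x ∈ C`, `z ∈ C` (CEN),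
so `z ± a x ∈ C` for `x ∈ S ∩ closedBall 0 1` (convexity); CON and scaling by `a`: volume at least `a^n (1/2) vol (closedBall 0 1)`. (The translation of J3 moves the centre.) -/
def IN2_stmt : Prop := ∀ᶠ n : ℕ in atTop, ∀ C : Set (E n), ConstWidth C 1 →
  ∃ z : E n, ENNReal.ofReal (0.39043 ^ n / 2) * volume (Metric.closedBall (0 : E n) 1) ≤
    volume {x : E n | z + x ∈ C ∧ z - x ∈ C}

/-- **ML2** (short, 40 lines; VO2, and `MVN_stmt` of Pool/Agent/helper71/CL/Spec.lean, proved in Pool/Agent/helper25/CL/MVN.lean). -/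
def ML2_stmt : Prop := ∀ᶠ n : ℕ in atTop, ENNReal.ofReal (0.8189 ^ n) ≤ mvol n

/-- **TA2** (short-medium, 50 lines; ML2). Proof. `lower_tau` in Pool/Agent/helper81/CW/Lower.lean: `mvol n/(5(n+1)) ≤ tau n`; `0.8189^n/(5(n+1)) ≥ 0.8188^n` for large `n`. Compare
`final_tau_low` in Pool/Agent/helper81/CW/Final.lean. -/
def TA2_stmt : Prop := ∀ᶠ n : ℕ in atTop, ENNReal.ofReal (0.8188 ^ n) ≤ tau n

/-- **BL2** (short-medium, 60 lines; ML2). Proof. `all_CFIN` in Pool/Agent/helper71/CL/All.lean gives the limit `β`; for large `n` `(mvol n)^(1/n) ≥ 0.8189`, so `β ≥ 0.8189` (`ge_of_tendsto`). -/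
def BL2_stmt : Prop := ∃ β : ℝ, 0.8189 ≤ β ∧ β ≤ 0.9 ∧
  Tendsto (fun d : ℕ => (tau d).toReal ^ (1 / (d : ℝ))) atTop (𝓝 β) ∧
  Tendsto (fun d : ℕ => (mvol d).toReal ^ (1 / (d : ℝ))) atTop (𝓝 β) ∧
  ∀ d : ℕ, 1 ≤ d → ENNReal.ofReal (β ^ d) ≤ ENNReal.ofReal (8 * Real.sqrt (d : ℝ)) * mvol d

/-- **SG2** (short-medium, 80 lines; G6, J2, J3, IN2). Proof. As SLOWS (Pool/Agent/helper81/CW/SLOWS.lean): for `C` of width `w` use `(1/w) C`; the set `{z + x : z ± x ∈ C}` is convex and symmetric, `vol C ≤ vol (closedBall 0 (1/2))` (G6), so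
`innerSym C ≥ 0.78086^n/2 ≥ 0.7808^n` for large `n`. -/
def SG2_stmt : Prop := ∀ᶠ n : ℕ in atTop, ENNReal.ofReal (0.7808 ^ n) ≤ sigma n

/-- **AL2** (short-medium, 60 lines; SG2). Proof. `all_CIN` in Pool/Agent/helper81/CI/All.lean gives the limit `α`; `ge_of_tendsto`. -/
def AL2_stmt : Prop := ∃ α : ℝ, 0.7808 ≤ α ∧ α ≤ 0.991 ∧
  Tendsto (fun n : ℕ => (sigma n).toReal ^ (1 / (n : ℝ))) atTop (𝓝 α) ∧
  ∀ d : ℕ, 1 ≤ d → ENNReal.ofReal (α ^ d) ≤ ENNReal.ofReal (31 * (d : ℝ)) * sigma d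

end Pool.Agent.CX
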